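import Mathlib

/-!
# Ratios of consecutive terms of the Thue-Morse-twisted Fibonacci sequence

With `x n = - h (2 n)` one has `h (2 n + 1) = ± h (2 n - 2)` and `x (n + 2) = x (n + 1) ± x n`, where the sign is `+`
for odd `n` and `-` for `n ≡ 0` modulo `4`. With `a = x (4 j + 2)`, `b = x (4 j + 3)` and the sign `d` belonging to
`4 j + 4`, the next values are `b + d a`, `2 b + d a`, `b`, `3 b + d a`. So `b ≥ 2 a` for all `j`, and the ratios of
consecutive terms are controlled by this.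
-/

set_option autoImplicit false

namespace Pool.Agent.Results.MP_e68cb8_nt.TwoSevenths

/-- `t n = (-1) ^ (number of ones in the binary expansion of n)`. -/
def t (n : ℕ) : ℤ := (-1) ^ (Nat.digits 2 n).sum

/-- `h 0 = 0`, `h 1 = 1`, `h n = t n * h (n - 1) + h (n - 2)`. -/
def h : ℕ → ℤ
  | 0 => 0
  | 1 => 1
  | (n + 2) => t (n + 2) * h (n + 1) + h n

lemma t_double (n : ℕ) : t (2 * n) = t n := by
  unfold t
  rcases Nat.eq_zero_or_pos n with rfl | hn
  · simp
  · rw [Nat.digits_def' (by norm_num) (by omega)]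
    simp

lemma t_double_add (n : ℕ) : t (2 * n + 1) = - t n := by
  unfold t
  rw [Nat.digits_def' (by norm_num) (by omega)]
  have h1 : (2 * n + 1) % 2 = 1 := by omega
  have h2 : (2 * n + 1) / 2 = n := by omega
  rw [h1, h2, List.sum_cons, pow_add]
  ring

lemma t_sq (n : ℕ) : t n * t n = 1 := by
  unfold t
  rw [← pow_add, ← two_mul, pow_mul]
  simp

lemma t_cases (n : ℕ) : t n = 1 ∨ t n = -1 := by
  have := t_sq n
  have h1 : (t n - 1) * (t n + 1) = 0 := by linear_combination this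
  rcases mul_eq_zero.1 h1 with h2 | h2
  · left; linarith
  · right; linarith

lemma h_odd (n : ℕ) : h (2 * n + 3) = t (2 * n + 3) * h (2 * n) := by
  have e1 : h (2 * n + 3) = t (2 * n + 3) * h (2 * n + 2) + h (2 * n + 1) := rfl
  have e2 : h (2 * n + 2) = t (2 * n + 2) * h (2 * n + 1) + h (2 * n) := rfl
  have e3 : t (2 * n + 3) = - t (n + 1) := by
    rw [show 2 * n + 3 = 2 * (n + 1) + 1 by ring, t_double_add]
  have e4 : t (2 * n + 2) = t (n + 1) := by
    rw [show 2 * n + 2 = 2 * (n + 1) by ring, t_double]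
  have e5 := t_sq (n + 1)
  rw [e1, e2, e3, e4]
  linear_combination (- h (2 * n + 1)) * e5

/-- the sign in the recursion for the terms with an even index -/
def d (n : ℕ) : ℤ := t (2 * n) * t (2 * n - 1)

/-- `x n = - h (2 n)` -/
def x (n : ℕ) : ℤ := - h (2 * n)

lemma x_rec (n : ℕ) : x (n + 3) = x (n + 2) + d (n + 3) * x (n + 1) := by
  unfold x d
  have e1 : h (2 * (n + 3)) = t (2 * (n + 3)) * h (2 * (n + 2) + 1) + h (2 * (n + 2)) := rfl
  have e2 : h (2 * (n + 2) + 1) = t (2 * (n + 2) + 1) * h (2 * (n + 1)) := by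
    have := h_odd (n + 1)
    rw [show 2 * (n + 1) + 3 = 2 * (n + 2) + 1 by ring] at this
    exact this
  rw [e1, e2, show 2 * (n + 3) - 1 = 2 * (n + 2) + 1 by omega]
  ring

lemma d_odd (n : ℕ) : d (2 * n + 1) = 1 := by
  unfold d
  rw [t_double, t_double_add]
  have h1 : 2 * (2 * n + 1) - 1 = 2 * (2 * n) + 1 := by omega
  rw [h1, t_double_add, t_double]
  linear_combination t_sq n

lemma d_double (n : ℕ) : d (2 * (n + 1)) = - d (n + 1) := by
  unfold d
  have h1 : 2 * (2 * (n + 1)) - 1 = 2 * (2 * n + 1) + 1 := by omega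
  have h2 : 2 * (n + 1) - 1 = 2 * n + 1 := by omega
  rw [t_double, h1, t_double_add, h2]
  ring

lemma d_cases (n : ℕ) : d n = 1 ∨ d n = -1 := by
  unfold d
  rcases t_cases (2 * n) with h1 | h1 <;> rcases t_cases (2 * n - 1) with h2 | h2 <;>
    simp [h1, h2]

/-- one block of four steps -/
lemma block (j : ℕ) :
    x (4 * j + 4) = x (4 * j + 3) + d (4 * j + 4) * x (4 * j + 2) ∧
    x (4 * j + 5) = 2 * x (4 * j + 3) + d (4 * j + 4) * x (4 * j + 2) ∧
    x (4 * j + 6) = x (4 * j + 3) ∧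
    x (4 * j + 7) = 3 * x (4 * j + 3) + d (4 * j + 4) * x (4 * j + 2) := by
  have e1 := x_rec (4 * j + 1)
  have e2 := x_rec (4 * j + 2)
  have e3 := x_rec (4 * j + 3)
  have e4 := x_rec (4 * j + 4)
  have d2 : d (4 * j + 2 + 3) = 1 := by
    rw [show 4 * j + 2 + 3 = 2 * (2 * j + 2) + 1 by ring, d_odd]
  have d3 : d (4 * j + 3 + 3) = -1 := by
    rw [show 4 * j + 3 + 3 = 2 * ((2 * j + 2) + 1) by ring, d_double,
      show 2 * j + 2 + 1 = 2 * (j + 1) + 1 by ring, d_odd]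
  have d4 : d (4 * j + 4 + 3) = 1 := by
    rw [show 4 * j + 4 + 3 = 2 * (2 * j + 3) + 1 by ring, d_odd]
  rw [d2] at e2
  rw [d3] at e3
  rw [d4] at e4
  refine ⟨e1, ?_, ?_, ?_⟩
  · linear_combination e1 + e2
  · linear_combination e2 + e3
  · linear_combination e1 + 2 * e2 + e3 + e4

lemma x0 : x 0 = 0 := rfl

lemma small : x 1 = 1 ∧ x 2 = 1 ∧ x 3 = 2 := by
  decide

lemma main (j : ℕ) : 0 < x (4 * j + 2) ∧ 2 * x (4 * j + 2) ≤ x (4 * j + 3) := by
  induction j with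
  | zero =>
    obtain ⟨_, h2, h3⟩ := small
    simp only [mul_zero, zero_add]
    rw [h2, h3]
    norm_num
  | succ j ih =>
    obtain ⟨i1, i2⟩ := ih
    obtain ⟨e1, e2, e3, e4⟩ := block j
    rw [show 4 * (j + 1) + 2 = 4 * j + 6 by ring, show 4 * (j + 1) + 3 = 4 * j + 7 by ring, e3, e4]
    rcases d_cases (4 * j + 4) with h1 | h1 <;> rw [h1] <;> constructor <;> linarith

/-- the two inequalities for the terms with an even index, and positivity -/
lemma ineq (m : ℕ) : 0 < x (m + 1) ∧ 2 * x (m + 2) ≤ 7 * x (m + 1) ∧ 2 * x m ≤ 7 * x (m + 2) := by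
  rcases lt_or_ge m 2 with hm | hm
  · obtain ⟨h1, h2, h3⟩ := small
    have h0 := x0
    interval_cases m
    · simp only [zero_add]
      rw [h1, h2, h0]
      norm_num
    · simp only [Nat.reduceAdd]
      rw [h1, h2, h3]
      norm_num
  · obtain ⟨j, i, hi, rfl⟩ : ∃ j i, i < 4 ∧ m = 4 * j + 2 + i :=
      ⟨(m - 2) / 4, (m - 2) % 4, Nat.mod_lt _ (by norm_num), by omega⟩
    obtain ⟨e1, e2, e3, e4⟩ := block j
    obtain ⟨i1, i2⟩ := main j
    have hd := d_cases (4 * j + 4)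
    interval_cases i
    · rw [show 4 * j + 2 + 0 + 1 = 4 * j + 3 by ring, show 4 * j + 2 + 0 + 2 = 4 * j + 4 by ring,
        add_zero, e1]
      rcases hd with h1 | h1 <;> rw [h1] <;> refine ⟨?_, ?_, ?_⟩ <;> linarith
    · rw [show 4 * j + 2 + 1 + 1 = 4 * j + 4 by ring, show 4 * j + 2 + 1 + 2 = 4 * j + 5 by ring,
        show 4 * j + 2 + 1 = 4 * j + 3 by ring, e1, e2]
      rcases hd with h1 | h1 <;> rw [h1] <;> refine ⟨?_, ?_, ?_⟩ <;> linarith
    · rw [show 4 * j + 2 + 2 + 1 = 4 * j + 5 by ring, show 4 * j + 2 + 2 + 2 = 4 * j + 6 by ring,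
        show 4 * j + 2 + 2 = 4 * j + 4 by ring, e1, e2, e3]
      rcases hd with h1 | h1 <;> rw [h1] <;> refine ⟨?_, ?_, ?_⟩ <;> linarith
    · rw [show 4 * j + 2 + 3 + 1 = 4 * j + 6 by ring, show 4 * j + 2 + 3 + 2 = 4 * j + 7 by ring,
        show 4 * j + 2 + 3 = 4 * j + 5 by ring, e2, e3, e4]
      rcases hd with h1 | h1 <;> rw [h1] <;> refine ⟨?_, ?_, ?_⟩ <;> linarith

lemma x_nonneg (m : ℕ) : 0 ≤ x m := by
  rcases m with _ | m
  · rw [x0]
  · exact (ineq m).1.le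

lemma abs_even (m : ℕ) : |h (2 * m)| = x m := by
  have h1 := x_nonneg m
  unfold x at h1 ⊢
  rw [abs_of_nonpos (by linarith)]

lemma abs_odd (m : ℕ) : |h (2 * m + 3)| = x m := by
  rw [h_odd, abs_mul, abs_even]
  rcases t_cases (2 * m + 3) with h1 | h1 <;> rw [h1] <;> simp

/-- `|h n| ≥ (2 / 7) |h (n - 1)|` for every `n ≥ 4`. -/
theorem result : ∀ n : ℕ, 4 ≤ n → (2 / 7 : ℝ) * |(h (n - 1) : ℝ)| ≤ |(h n : ℝ)| := by
  intro n hn
  have key : 2 * |h (n - 1)| ≤ 7 * |h n| := by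
    rcases Nat.even_or_odd' n with ⟨m, rfl | rfl⟩
    · obtain ⟨k, rfl⟩ : ∃ k, m = k + 2 := ⟨m - 2, by omega⟩
      rw [abs_even, show 2 * (k + 2) - 1 = 2 * k + 3 by omega, abs_odd]
      exact (ineq k).2.2
    · obtain ⟨k, rfl⟩ : ∃ k, m = k + 2 := ⟨m - 2, by omega⟩
      rw [show 2 * (k + 2) + 1 - 1 = 2 * (k + 2) by omega, abs_even,
        show 2 * (k + 2) + 1 = 2 * (k + 1) + 3 by ring, abs_odd]
      exact (ineq k).2.1
  have key' : (2 : ℝ) * |(h (n - 1) : ℝ)| ≤ 7 * |(h n : ℝ)| := by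
    have : ((2 * |h (n - 1)| : ℤ) : ℝ) ≤ ((7 * |h n| : ℤ) : ℝ) := by exact_mod_cast key
    push_cast at this
    exact this
  linarith

end Pool.Agent.Results.MP_e68cb8_nt.TwoSevenths
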